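import Pool.Agent.H67.PI.Emb

/-!
# Every finitely generated associative PI algebra embeds into a 2-generated associative PI algebra

`F` is an arbitrary field.  Let `B` be an associative PI algebra generated by
`a 0, ..., a (k-1)`, let `C` be its unitization and `N = 4 k + 20`.  The subalgebra `M` of
`M_N(C)` generated by the cyclic permutation matrix `x` and the diagonal matrix `y` with entries
`1, 1, 1` at the places `0, 1, 3`, with `a j` at the place `4 j + 8`, and `0` elsewhere, contains
the matrix unit `e = e_00` and all `(a j) e_00`; hence it contains `B e_00`.  The algebra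
`M_N(C)`, and so `M`, satisfies a multilinear identity (a codimension count).
-/

set_option autoImplicit false

namespace Pool.Agent.Results.MP_e0d88d_al.AssociativeTwoGenerated

open Pool.Agent.H67.PI

universe u v

/-- An associative algebra `A` over a field `F` (not assumed unital) is PI: some nonzero
noncommutative polynomial `f` with zero constant term vanishes on `A`. (It is evaluated in the
algebra `F ⊕ A` obtained by adjoining a unit.) -/
def IsPI (F : Type u) [Field F] (A : Type v) [NonUnitalRing A] [Module F A]
    [IsScalarTower F A A] [SMulCommClass F A A] : Prop :=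
  ∃ (n : ℕ) (f : FreeAlgebra F (Fin n)), f ≠ 0 ∧ FreeAlgebra.algebraMapInv f = 0 ∧
    ∀ a : Fin n → A,
      FreeAlgebra.lift F (fun i => (Unitization.inr (a i) : Unitization F A)) f = 0

/-- Let `F` be a field and `B` an associative PI algebra over `F` generated (as an algebra
without unit) by finitely many elements `a 0, ..., a (k-1)`.  There are an associative PI algebra
`M` over `F` generated by two elements `x`, `y`, and an injective algebra homomorphism
`B → M`. -/
theorem result (F : Type u) [Field F] (B : Type v) [NonUnitalRing B] [Module F B]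
    [IsScalarTower F B B] [SMulCommClass F B B] (hB : IsPI F B) (k : ℕ) (a : Fin k → B)
    (ha : NonUnitalAlgebra.adjoin F (Set.range a) = ⊤) :
    ∃ (M : Type (max u v)) (_ : NonUnitalRing M) (_ : Module F M) (_ : IsScalarTower F M M)
      (_ : SMulCommClass F M M) (x y : M) (φ : B →ₙₐ[F] M),
      NonUnitalAlgebra.adjoin F ({x, y} : Set M) = ⊤ ∧ IsPI F M ∧ Function.Injective φ := by
  classical
  obtain ⟨n, f, hf, -, hfB⟩ := hB
  set N : ℕ := 4 * k + 20 with hN
  have : NeZero N := ⟨by omega⟩
  obtain ⟨m, α, hm, hα, hMα⟩ := unitization_matrix f hf hfB (ZMod N)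
  let M := Matrix (ZMod N) (ZMod N) (Unitization F B)
  let a' : ℕ → Unitization F B := fun j => if hj : j < k then Unitization.inr (a ⟨j, hj⟩) else 0
  let x : M := P (Unitization F B) N 1
  let y : M := Matrix.diagonal (h N a')
  let S : NonUnitalSubalgebra F M := NonUnitalAlgebra.adjoin F ({x, y} : Set M)
  have hx : x ∈ S := NonUnitalAlgebra.subset_adjoin F (by simp)
  have hy : y ∈ S := NonUnitalAlgebra.subset_adjoin F (by simp)
  let φ : B →ₙₐ[F] M :=
    { toFun := fun b => Matrix.single 0 0 (Unitization.inr b)
      map_smul' := by
        intro t b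
        rw [Unitization.inr_smul]
        exact (Matrix.smul_single t 0 0 _).symm
      map_zero' := by simp
      map_add' := by
        intro b b'
        rw [Unitization.inr_add, Matrix.single_add]
      map_mul' := by
        intro b b'
        rw [Unitization.inr_mul, Matrix.single_mul_single_same] }
  have hφinj : Function.Injective φ := by
    intro b b' hbb
    have h1 := congrArg (fun X : M => X 0 0) hbb
    have h2 : (Unitization.inr b : Unitization F B) = Unitization.inr b' := by
      simpa [φ] using h1
    exact Unitization.inr_injective h2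
  have hφS : ∀ b, φ b ∈ S := by
    intro b
    have h1 : NonUnitalAlgebra.adjoin F (Set.range a) ≤ S.comap φ := by
      rw [NonUnitalAlgebra.adjoin_le_iff]
      rintro _ ⟨j, rfl⟩
      have h3 := assoc_gen F (N := N) (by omega) (by omega) a' S hx hy j.val (by omega)
      have h4 : a' j.val = Unitization.inr (a j) := by
        simp [a']
      rw [h4] at h3
      exact h3
    have h2 : b ∈ NonUnitalAlgebra.adjoin F (Set.range a) := by
      rw [ha]
      trivial
    exact h1 h2
  refine ⟨S, inferInstance, inferInstance, inferInstance, inferInstance, ⟨x, hx⟩, ⟨y, hy⟩,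
    NonUnitalAlgHom.codRestrict φ S hφS, ?_, ?_, ?_⟩
  · rw [NonUnitalAlgebra.eq_top_iff]
    rintro ⟨z, hz⟩
    have h1 : S ≤ (NonUnitalAlgebra.adjoin F ({⟨x, hx⟩, ⟨y, hy⟩} : Set S)).map
        (NonUnitalSubalgebraClass.subtype S) := by
      change NonUnitalAlgebra.adjoin F ({x, y} : Set M) ≤ _
      rw [NonUnitalAlgebra.adjoin_le_iff]
      rintro w hw
      rcases hw with rfl | hw
      · exact ⟨⟨x, hx⟩, NonUnitalAlgebra.subset_adjoin F (by simp), rfl⟩
      · rw [Set.mem_singleton_iff] at hw
        subst hw
        exact ⟨⟨y, hy⟩, NonUnitalAlgebra.subset_adjoin F (by simp), rfl⟩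
    obtain ⟨w, hw1, hw2⟩ := h1 hz
    have : w = ⟨z, hz⟩ := Subtype.ext hw2
    rw [← this]
    exact hw1
  · exact ⟨m, mlp α, mlp_ne_zero α hα, mlp_const hm α, fun b => mlp_sub S hm α hMα b⟩
  · intro b b' hbb
    exact hφinj (congrArg Subtype.val hbb)

end Pool.Agent.Results.MP_e0d88d_al.AssociativeTwoGenerated
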